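import Pool.Agent.Helper656.BesBesselLower
import Pool.Agent.Helper656.BesBesselUpper
import Pool.Agent.Helper656.BesBesovUpper
import Pool.Agent.Helper656.BesContent

open scoped ENNReal NNReal SchwartzMap FourierTransform
open Pool.Agent.Helper656.Cap


namespace Pool.Agent.Results.MP_9b3711_an.NullSets

theorem besselCap_empty (n N : ℕ) (α p : ℝ) (hp : 0 < p) :
    besselCap N α p (∅ : Set (E n)) = 0 := by
  have hcomp : ∃ (U : 𝓢'(E n, ℂ)) (u : E n → ℝ), IsBesselPotential α (toDist 0) U ∧
      ContDiff ℝ (⊤ : ℕ∞) u ∧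
      (∀ φ : 𝓢(E n, ℂ), HasCompactSupport φ → U φ = ∫ x, (u x : ℂ) * φ x) ∧
      ∀ x ∈ (∅ : Set (E n)), 1 ≤ u x := by
    refine ⟨toDist 0, fun _ => 0, isBesselPotential_toDist 0 0 (fun ξ => ?_), contDiff_const,
      fun φ _ => ?_, fun x hx => absurd hx (Set.notMem_empty x)⟩
    · have : (𝓕 (0 : 𝓢(E n, ℂ)) : 𝓢(E n, ℂ)) = 0 := FourierTransform.fourier_zero
      rw [this]
      simp
    · rw [toDist_apply]
      simp
  have h1 : hardyPow N p (toDist (0 : 𝓢(E n, ℂ))) = 0 := by
    have h2 : ∀ x, grandMax N (toDist (0 : 𝓢(E n, ℂ))) x = 0 := by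
      intro x
      simp [grandMax, toDist_apply]
    unfold hardyPow
    simp [h2, hp]
  exact le_antisymm ((iInf₂_le (toDist 0) hcomp).trans h1.le) bot_le

theorem besovCap_empty (n : ℕ) (α p : ℝ) (hp : 0 < p) (hp1 : p ≤ 1) (D : Set 𝓢(E n, ℝ))
    (hD : ∀ φ : 𝓢(E n, ℝ), HasCompactSupport φ → φ ∈ D) :
    besovCap D α p (∅ : Set (E n)) = 0 := by
  have h0 : (0 : 𝓢(E n, ℝ)) ∈ D := hD 0 (by
    have : ((0 : 𝓢(E n, ℝ)) : E n → ℝ) = 0 := rfl
    rw [this]
    exact HasCompactSupport.zero)
  have h1 : besovPow α p (fun x : E n => (((0 : 𝓢(E n, ℝ)) x : ℝ) : ℂ)) = 0 := by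
    have h2 : (fun x : E n => (((0 : 𝓢(E n, ℝ)) x : ℝ) : ℂ)) = ((0 : 𝓢(E n, ℂ)) : E n → ℂ) := by
      ext x
      simp
    rw [h2]
    have h3 := besovPow_sum_le (n := n) α p hp hp1 (∅ : Finset Unit) (fun _ => 0) (fun _ => 0)
    rw [Finset.sum_empty, Finset.sum_empty] at h3
    exact le_antisymm h3 bot_le
  unfold besovCap
  refine le_antisymm ?_ bot_le
  refine iInf_le_of_le 0 (iInf_le_of_le h0 (iInf_le_of_le (fun x hx => absurd hx
    (Set.notMem_empty x)) h1.le))

end Pool.Agent.Results.MP_9b3711_an.NullSets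

/-- For all `n ≥ 1`, `0 < p < 1` and `α > 0` the Besov capacity `A_{α,p,p}` and the Hardy-Bessel
capacity `B_{α,p}` have the same compact null sets; they are the compact sets `K` with
`H^{n-αp}_∞(K) = 0` when `αp < n`, and only the empty set when `αp ≥ n`. -/
theorem Pool.Agent.Results.MP_9b3711_an.NullSets.result :
    ∀ n : ℕ, 1 ≤ n → ∀ α p : ℝ, 0 < α → 0 < p → p < 1 →
      ∃ N₀ : ℕ, ∀ N : ℕ, N₀ ≤ N →
        ∀ D : Set 𝓢(E n, ℝ), (∀ φ : 𝓢(E n, ℝ), HasCompactSupport φ → φ ∈ D) →
        ∀ K : Set (E n), IsCompact K →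
          (besovCap D α p K = 0 ↔ besselCap N α p K = 0) ∧
          (α * p < n → (besovCap D α p K = 0 ↔ hausdorffContent (n - α * p) K = 0)) ∧
          (n ≤ α * p → (besovCap D α p K = 0 ↔ K = ∅)) := by
  intro n hn α p hα hp hp1'
  have hp1 : p ≤ 1 := hp1'.le
  -- a common description of null sets
  rcases lt_or_ge (α * p) n with hαp | hαp
  · obtain ⟨N₀, hN₀⟩ := besselCap_eq_zero hn α p hα hp hp1 hαp
    refine ⟨N₀, fun N hN D hD K hK => ?_⟩
    obtain ⟨C₁, h₁⟩ := content_le_bessel hn α p hα hp hp1 hαp N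
    obtain ⟨C₂, h₂⟩ := content_le_besov (n := n) hn α p hα hp hp1 hαp
    have hB : besselCap N α p K = 0 ↔ hausdorffContent (n - α * p) K = 0 := by
      constructor
      · intro h
        have := h₁ K
        rw [h, mul_zero] at this
        exact le_antisymm this bot_le
      · exact hN₀ N hN K hK
    have hA : besovCap D α p K = 0 ↔ hausdorffContent (n - α * p) K = 0 := by
      constructor
      · intro h
        have h3 : hausdorffContent (n - α * p) K ≤ ((C₂ + 1 : ℝ≥0) : ℝ≥0∞) * besovCap D α p K := by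
          unfold besovCap
          rw [ENNReal.mul_iInf_of_ne (by simp) (by simp)]
          refine le_iInf fun u => ?_
          rw [ENNReal.mul_iInf_of_ne (by simp) (by simp)]
          refine le_iInf fun _ => ?_
          rw [ENNReal.mul_iInf_of_ne (by simp) (by simp)]
          refine le_iInf fun hu => ?_
          have h4 := h₂ (SchwartzMap.postcompCLM (𝕜 := ℝ) Complex.ofRealCLM u) K (by
            intro x hx
            rw [SchwartzMap.postcompCLM_apply, Complex.ofRealCLM_apply, Complex.norm_real,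
              Real.norm_eq_abs]
            exact (hu x hx).trans (le_abs_self _))
          refine h4.trans ?_
          have h5 : ((SchwartzMap.postcompCLM (𝕜 := ℝ) Complex.ofRealCLM u : 𝓢(E n, ℂ)) :
              E n → ℂ) = fun x => ((u x : ℝ) : ℂ) := by
            ext x
            rw [SchwartzMap.postcompCLM_apply, Complex.ofRealCLM_apply]
          rw [h5]
          gcongr
          simp
        rw [h, mul_zero] at h3
        exact le_antisymm h3 bot_le
      · exact besovCap_eq_zero hn α p hα hp hp1 hαp D hD K hK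
    exact ⟨hA.trans hB.symm, fun _ => hA, fun h => absurd hαp (not_lt.2 h)⟩
  · refine ⟨0, fun N _ D hD K hK => ?_⟩
    obtain ⟨C₁, h₁⟩ := one_le_bessel hn α p hα hp hp1 hαp N
    obtain ⟨C₂, h₂⟩ := one_le_besov (n := n) α p hα hp hp1 hαp
    have hB : besselCap N α p K = 0 ↔ K = ∅ := by
      constructor
      · intro h
        by_contra hne
        have h3 := h₁ K (Set.nonempty_iff_ne_empty.2 hne)
        rw [h, mul_zero] at h3
        exact absurd h3 (by simp)
      · rintro rfl
        exact NullSets.besselCap_empty n N α p hp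
    have hA : besovCap D α p K = 0 ↔ K = ∅ := by
      constructor
      · intro h
        by_contra hne
        obtain ⟨x, hx⟩ := Set.nonempty_iff_ne_empty.2 hne
        have h3 : 1 ≤ ((C₂ + 1 : ℝ≥0) : ℝ≥0∞) * besovCap D α p K := by
          unfold besovCap
          rw [ENNReal.mul_iInf_of_ne (by simp) (by simp)]
          refine le_iInf fun u => ?_
          rw [ENNReal.mul_iInf_of_ne (by simp) (by simp)]
          refine le_iInf fun _ => ?_
          rw [ENNReal.mul_iInf_of_ne (by simp) (by simp)]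
          refine le_iInf fun hu => ?_
          have h4 := h₂ (SchwartzMap.postcompCLM (𝕜 := ℝ) Complex.ofRealCLM u) x (by
            rw [SchwartzMap.postcompCLM_apply, Complex.ofRealCLM_apply, Complex.norm_real,
              Real.norm_eq_abs]
            exact (hu x hx).trans (le_abs_self _))
          refine h4.trans ?_
          have h5 : ((SchwartzMap.postcompCLM (𝕜 := ℝ) Complex.ofRealCLM u : 𝓢(E n, ℂ)) :
              E n → ℂ) = fun x => ((u x : ℝ) : ℂ) := by
            ext x
            rw [SchwartzMap.postcompCLM_apply, Complex.ofRealCLM_apply]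
          rw [h5]
          gcongr
          simp
        rw [h, mul_zero] at h3
        exact absurd h3 (by simp)
      · rintro rfl
        exact NullSets.besovCap_empty n α p hp hp1 D hD
    exact ⟨hA.trans hB.symm, fun h => absurd h (not_lt.2 hαp), fun _ => hA⟩
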